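import Pool.Agent.Helper96.PW.E8
import Pool.Agent.Helper70.PW.C5

/-!
Module E9 for MP_124889_co: assembly (induction over even orders, gluing over the components,
naming of the three reals).  The induction step (module E7) enters as the hypothesis `EvenStep`.
-/

namespace PoolPW

/-- the statement of module E7 -/
def EvenStep.{u} : Prop :=
  ∀ (V : Type u) [Fintype V] (M : SimpleGraph V), M.Connected → ∀ (β : V → ℕ) (a z c : ℝ),
    a < c → z < c → ∀ (Φ : ℝ → ZMod 2), (∀ t, Φ (t + (c - a)) = Φ t) →
    (∀ t, Φ (t + (z - a)) = Φ t + 1) →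
    (∀ (W : Type u) [Fintype W] (N : SimpleGraph W) (β' : W → ℕ),
      Fintype.card W < Fintype.card V → N.Connected → Even (Fintype.card W) →
      (2 < Fintype.card W ∨ ∃ v, 0 < β' v) → Good N β' a z c) →
    Even (Fintype.card V) → (2 < Fintype.card V ∨ ∃ v, 0 < β v) → Good M β a z c

/-- strong induction on the order -/
theorem E9.even_all.{u} (H : EvenStep.{u}) (a z c : ℝ) (hac : a < c) (hzc : z < c)
    (Φ : ℝ → ZMod 2) (h1 : ∀ t, Φ (t + (c - a)) = Φ t) (h2 : ∀ t, Φ (t + (z - a)) = Φ t + 1) :
    ∀ (n : ℕ) (V : Type u) [Fintype V] (M : SimpleGraph V) (β : V → ℕ),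
      Fintype.card V = n → M.Connected → Even (Fintype.card V) →
      (2 < Fintype.card V ∨ ∃ v, 0 < β v) → Good M β a z c := by
  intro n
  induction n using Nat.strong_induction_on with
  | _ n ih =>
    intro V _ M β hn hM hE hV
    refine H V M hM β a z c hac hzc Φ h1 h2 ?_ hE hV
    intro W _ N β' hW hN hWE hW2
    exact ih (Fintype.card W) (by omega) W N β' rfl hN hWE hW2

/-- a symmetric proper labelling with values `a, z, c` -/
def Solv {V : Type*} [Fintype V] (M : SimpleGraph V) (a z c : ℝ) : Prop :=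
  ∃ w : V → V → ℝ, (∀ u v, w u v = w v u) ∧ (∀ u v, w u v = a ∨ w u v = z ∨ w u v = c) ∧
    ∀ u v, M.Adj u v → val M (fun _ => 0) w u ≠ val M (fun _ => 0) w v

theorem E9.solv_of_good {V : Type*} [Fintype V] (M : SimpleGraph V) (a z c : ℝ)
    (h : Good M (fun _ => 0) a z c) : Solv M a z c := by
  obtain ⟨w, i, hw1, hw2, hi, hw5⟩ := h
  have hi0 : ∀ v, i v = 0 := fun v => Nat.le_zero.mp (hi v)
  refine ⟨w, hw1, hw2, ?_⟩
  intro u v huv
  have h := hw5 u v huv
  unfold val at h ⊢
  simpa [hi0] using h

/-- connected graphs, `c` the maximum -/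
theorem E9.connected.{u} (H : EvenStep.{u}) {V : Type u} [Fintype V] (M : SimpleGraph V)
    (hM : M.Connected) (h2V : Fintype.card V ≠ 2) (a z c : ℝ) (hac : a < c) (hzc : z < c)
    (Φ : ℝ → ZMod 2) (h1 : ∀ t, Φ (t + (c - a)) = Φ t) (h2 : ∀ t, Φ (t + (z - a)) = Φ t + 1) :
    Solv M a z c := by
  apply E9.solv_of_good
  by_cases hE : Even (Fintype.card V)
  · refine E9.even_all H a z c hac hzc Φ h1 h2 _ V M (fun _ => 0) rfl hM hE (Or.inl ?_)
    have := hM.nonempty
    have h3 : 0 < Fintype.card V := Fintype.card_pos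
    obtain ⟨k, hk⟩ := hE
    omega
  · exact odd_case M hM a z c hac.ne Φ h1 h2 hE

open Classical in
/-- gluing over the connected components -/
theorem E9.glue {V : Type*} [Fintype V] (G : SimpleGraph V) (a z c : ℝ)
    (h : ∀ C : G.ConnectedComponent, Solv (G.induce C.supp) a z c) : Solv G a z c := by
  choose f hf1 hf2 hf3 using h
  have hmem : ∀ v, v ∈ (G.connectedComponentMk v).supp := fun v => rfl
  set w : V → V → ℝ := fun u v =>
    if h : G.connectedComponentMk v = G.connectedComponentMk u then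
      f (G.connectedComponentMk u) ⟨u, rfl⟩ ⟨v, h⟩ else a with hw
  have hval : ∀ (C : G.ConnectedComponent) (u : V) (hu : u ∈ C.supp),
      val G (fun _ => 0) w u = val (G.induce C.supp) (fun _ => 0) (f C) ⟨u, hu⟩ := by
    intro C u hu
    have hu' : G.connectedComponentMk u = C := hu
    subst hu'
    unfold val
    congr 1
    symm
    refine Finset.sum_bij (fun x _ => (x : V)) ?_ ?_ ?_ ?_
    · intro x hx
      simp only [Finset.mem_filter, Finset.mem_univ, true_and, SimpleGraph.comap_adj,
        Function.Embedding.subtype_apply] at hx ⊢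
      exact hx
    · intro x _ y _ hxy
      exact Subtype.ext hxy
    · intro x hx
      simp only [Finset.mem_filter, Finset.mem_univ, true_and] at hx
      have hxC : G.connectedComponentMk x = G.connectedComponentMk u :=
        SimpleGraph.ConnectedComponent.eq.mpr hx.symm.reachable
      refine ⟨⟨x, hxC⟩, ?_, rfl⟩
      simp only [Finset.mem_filter, Finset.mem_univ, true_and, SimpleGraph.comap_adj,
        Function.Embedding.subtype_apply]
      exact hx
    · intro x hx
      have hx2 : G.connectedComponentMk (x : V) = G.connectedComponentMk u := x.2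
      simp only [hw]
      rw [dif_pos hx2]
  refine ⟨w, ?_, ?_, ?_⟩
  · intro u v
    simp only [hw]
    by_cases h : G.connectedComponentMk v = G.connectedComponentMk u
    · rw [dif_pos h, dif_pos h.symm]
      have key : ∀ (C D : G.ConnectedComponent) (_ : C = D) (hu : u ∈ C.supp) (hv : v ∈ C.supp)
          (hu' : u ∈ D.supp) (hv' : v ∈ D.supp),
          f C ⟨u, hu⟩ ⟨v, hv⟩ = f D ⟨v, hv'⟩ ⟨u, hu'⟩ := by
        intro C D hCD hu hv hu' hv'
        subst hCD
        exact hf1 C _ _
      exact key _ _ h.symm _ _ _ _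
    · rw [dif_neg h, dif_neg (fun h' => h h'.symm)]
  · intro u v
    simp only [hw]
    split_ifs with h
    · exact hf2 _ _ _
    · exact Or.inl rfl
  · intro u v huv
    have hv : v ∈ (G.connectedComponentMk u).supp :=
      SimpleGraph.ConnectedComponent.eq.mpr huv.symm.reachable
    rw [hval (G.connectedComponentMk u) u (hmem u), hval (G.connectedComponentMk u) v hv]
    apply hf3
    simpa using huv

/-- `c` the maximum, arbitrary graph without isolated edges -/
theorem E9.general.{u} (H : EvenStep.{u}) {V : Type u} [Fintype V] (G : SimpleGraph V)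
    (hG : ∀ u v, G.Adj u v → ∃ x, (G.Adj u x ∧ x ≠ v) ∨ (G.Adj v x ∧ x ≠ u))
    (a z c : ℝ) (hac : a < c) (hzc : z < c)
    (Φ : ℝ → ZMod 2) (h1 : ∀ t, Φ (t + (c - a)) = Φ t) (h2 : ∀ t, Φ (t + (z - a)) = Φ t + 1) :
    Solv G a z c := by
  classical
  apply E9.glue
  intro C
  have hC : (G.induce C.supp).Connected := C.connected_toSimpleGraph
  refine E9.connected H (G.induce C.supp) hC ?_ a z c hac hzc Φ h1 h2
  intro hcard
  rw [← Finset.card_univ, Finset.card_eq_two] at hcard
  obtain ⟨x, y, hxy, huniv⟩ := hcard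
  have hall : ∀ t : C.supp, t = x ∨ t = y := by
    intro t
    have := Finset.mem_univ t
    rw [huniv] at this
    simpa using this
  -- `x` and `y` are adjacent
  have hadj : G.Adj x y := by
    obtain ⟨p⟩ := hC.preconnected x y
    cases p with
    | nil => exact absurd rfl hxy
    | cons h p =>
      rename_i t
      rcases hall t with ht | ht
      · rw [ht] at h
        exact absurd h (SimpleGraph.irrefl _)
      · rw [ht] at h
        exact h
  obtain ⟨t, ht⟩ := hG x y hadj
  have htC : t ∈ C.supp := by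
    rcases ht with ht | ht
    · have : G.connectedComponentMk t = G.connectedComponentMk (x : V) :=
        SimpleGraph.ConnectedComponent.eq.mpr ht.1.symm.reachable
      exact this.trans x.2
    · have : G.connectedComponentMk t = G.connectedComponentMk (y : V) :=
        SimpleGraph.ConnectedComponent.eq.mpr ht.1.symm.reachable
      exact this.trans y.2
  rcases hall ⟨t, htC⟩ with h | h
  · have h' : t = (x : V) := congrArg Subtype.val h
    rcases ht with ht | ht
    · rw [h'] at ht
      exact absurd ht.1 (SimpleGraph.irrefl _)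
    · exact ht.2 h'
  · have h' : t = (y : V) := congrArg Subtype.val h
    rcases ht with ht | ht
    · exact ht.2 h'
    · rw [h'] at ht
      exact absurd ht.1 (SimpleGraph.irrefl _)

theorem E9.neg {V : Type*} [Fintype V] (G : SimpleGraph V) (a z c : ℝ)
    (h : Solv G (-a) (-z) (-c)) : Solv G a z c := by
  obtain ⟨w, h1, h2, h3⟩ := h
  refine ⟨fun u v => - w u v, ?_, ?_, ?_⟩
  · intro u v
    simp only [h1 u v]
  · intro u v
    rcases h2 u v with h | h | h
    · exact Or.inl (by simp only [h, neg_neg])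
    · exact Or.inr (Or.inl (by simp only [h, neg_neg]))
    · exact Or.inr (Or.inr (by simp only [h, neg_neg]))
  · intro u v huv h
    apply h3 u v huv
    unfold val at h ⊢
    simp only [Finset.sum_neg_distrib, zero_add, neg_inj] at h ⊢
    exact h

theorem E9.swap {V : Type*} [Fintype V] (G : SimpleGraph V) (a z c : ℝ)
    (h : Solv G c z a) : Solv G a z c := by
  obtain ⟨w, h1, h2, h3⟩ := h
  refine ⟨w, h1, ?_, h3⟩
  intro u v
  rcases h2 u v with h | h | h
  · exact Or.inr (Or.inr h)
  · exact Or.inr (Or.inl h)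
  · exact Or.inl h

/-- the maximum is one of the even pair -/
theorem E9.evenMax.{u} (H : EvenStep.{u}) {V : Type u} [Fintype V] (G : SimpleGraph V)
    (hG : ∀ u v, G.Adj u v → ∃ x, (G.Adj u x ∧ x ≠ v) ∨ (G.Adj v x ∧ x ≠ u))
    (a z c : ℝ) (hac : a ≠ c) (hz : z < a ∨ z < c)
    (Φ : ℝ → ZMod 2) (h1 : ∀ t, Φ (t + (c - a)) = Φ t) (h2 : ∀ t, Φ (t + (z - a)) = Φ t + 1) :
    Solv G a z c := by
  rcases lt_or_gt_of_ne hac with h | h
  · have hzc : z < c := by
      rcases hz with hz | hz
      · exact hz.trans h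
      · exact hz
    exact E9.general H G hG a z c h hzc Φ h1 h2
  · have hza : z < a := by
      rcases hz with hz | hz
      · exact hz
      · exact hz.trans h
    have h1' : ∀ t, Φ (t + (a - c)) = Φ t := by
      intro t
      have := h1 (t + (a - c))
      rw [show t + (a - c) + (c - a) = t by ring] at this
      exact this.symm
    apply E9.swap
    refine E9.general H G hG c z a h hza Φ h1' ?_
    intro t
    have := h2 (t + (a - c))
    rw [show t + (a - c) + (z - a) = t + (z - c) by ring, h1' t] at this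
    exact this

/-- all cases -/
theorem E9.all.{u} (H : EvenStep.{u}) {V : Type u} [Fintype V] (G : SimpleGraph V)
    (hG : ∀ u v, G.Adj u v → ∃ x, (G.Adj u x ∧ x ≠ v) ∨ (G.Adj v x ∧ x ≠ u))
    (a z c : ℝ) (hac : a ≠ c) (haz : a ≠ z)
    (Φ : ℝ → ZMod 2) (h1 : ∀ t, Φ (t + (c - a)) = Φ t) (h2 : ∀ t, Φ (t + (z - a)) = Φ t + 1) :
    Solv G a z c := by
  rcases lt_or_gt_of_ne haz with h | h
  · apply E9.neg
    refine E9.evenMax H G hG (-a) (-z) (-c) (fun h => hac (neg_inj.mp h))
      (Or.inl (neg_lt_neg h)) (fun t => Φ (-t)) ?_ ?_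
    · intro t
      have e1 := h1 (-t - (c - a))
      rw [show -t - (c - a) + (c - a) = -t by ring] at e1
      show Φ (-(t + (-c - -a))) = Φ (-t)
      rw [e1]
      have e2 := h1 (-(t + (-c - -a)))
      rw [show -(t + (-c - -a)) = -t + (c - a) by ring] at e2 ⊢
      rw [h1 (-t), ← e1]
    · intro t
      show Φ (-(t + (-z - -a))) = Φ (-t) + 1
      rw [show -(t + (-z - -a)) = -t + (z - a) by ring]
      exact h2 (-t)
  · exact E9.evenMax H G hG a z c hac (Or.inl h) Φ h1 h2

/-- The final theorem, from module E7. -/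
theorem main_of_step.{u} (H : EvenStep.{u}) {V : Type u} [Finite V] (G : SimpleGraph V)
    (hG : ∀ u v, G.Adj u v → ∃ x, (G.Adj u x ∧ x ≠ v) ∨ (G.Adj v x ∧ x ≠ u))
    (p q s : ℝ) (hpq : p ≠ q) (hps : p ≠ s) (hqs : q ≠ s) :
    ∃ w : Sym2 V → ℝ, (∀ e ∈ G.edgeSet, w e = p ∨ w e = q ∨ w e = s) ∧
      ∀ u v, G.Adj u v →
        ∑ᶠ x ∈ G.neighborSet u, w s(u, x) ≠ ∑ᶠ x ∈ G.neighborSet v, w s(v, x) := by
  classical
  have : Fintype V := Fintype.ofFinite V
  obtain ⟨a, b, c, hab, hbc, hac, hset, Φ, h1, h2⟩ := exists_parity p q s hpq hqs hps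
  obtain ⟨w, hw1, hw2, hw3⟩ := E9.all H G hG a b c hac hab Φ h1 h2
  refine ⟨Sym2.lift ⟨w, hw1⟩, ?_, ?_⟩
  · intro e _
    induction e using Sym2.ind with
    | _ u v =>
      rw [Sym2.lift_mk]
      have : w u v ∈ ({a, b, c} : Set ℝ) := by
        rcases hw2 u v with h | h | h
        · rw [h]; simp
        · rw [h]; simp
        · rw [h]; simp
      rw [hset] at this
      simpa using this
  · have key : ∀ v, ∑ᶠ x ∈ G.neighborSet v, (Sym2.lift ⟨w, hw1⟩ : Sym2 V → ℝ) s(v, x) =
        val G (fun _ => 0) w v := by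
      intro v
      unfold val
      rw [zero_add]
      rw [finsum_mem_eq_finite_toFinset_sum _ (Set.toFinite _)]
      apply Finset.sum_congr
      · ext x
        simp
      · intro x _
        rw [Sym2.lift_mk]
    intro u v huv
    rw [key u, key v]
    exact hw3 u v huv

end PoolPW
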