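import Pool.Agent.Helper60.PW.Defs2

/-!
Module E8 for MP_124889_co: connected graphs of odd order.
-/

namespace PoolPW

theorem E8.exists_maxCut {V : Type*} [Fintype V] (M : SimpleGraph V) :
    ∃ T : V → ZMod 2, IsMaxCut M T := by
  classical
  obtain ⟨T, -, hT⟩ := Finset.exists_max_image (Finset.univ : Finset (V → ZMod 2))
    (fun T => cutCount M T) ⟨fun _ => 0, Finset.mem_univ _⟩
  exact ⟨T, fun T' => hT T' (Finset.mem_univ _)⟩

theorem E8.cutCount_add_one {V : Type*} [Fintype V] (M : SimpleGraph V) (T : V → ZMod 2) :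
    cutCount M (fun v => T v + 1) = cutCount M T := by
  unfold cutCount
  congr 1
  ext e
  simp only [Finset.mem_filter, Finset.mem_univ, true_and, ne_eq, add_left_inj]

/-- Module E8 (odd order; no half-edges). -/
theorem odd_case {V : Type*} [Fintype V] (M : SimpleGraph V) (hM : M.Connected)
    (a z c : ℝ) (hac : a ≠ c) (Φ : ℝ → ZMod 2)
    (h1 : ∀ t, Φ (t + (c - a)) = Φ t) (h2 : ∀ t, Φ (t + (z - a)) = Φ t + 1)
    (hVo : ¬ Even (Fintype.card V)) :
    Good M (fun _ => 0) a z c := by
  classical
  obtain ⟨T0, hT0⟩ := E8.exists_maxCut M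
  -- the right parity
  obtain ⟨T, hT, hpar⟩ : ∃ T : V → ZMod 2, IsMaxCut M T ∧
      ∑ v, (Φ ((fun _ : V => (0 : ℝ)) v +
        a * (Finset.univ.filter (fun x => M.Adj v x)).card) + T v) = 0 := by
    have h01 : ∀ x : ZMod 2, x = 0 ∨ x = 1 := by decide
    rcases h01 (∑ v, (Φ ((fun _ : V => (0 : ℝ)) v +
        a * (Finset.univ.filter (fun x => M.Adj v x)).card) + T0 v)) with h | h
    · exact ⟨T0, hT0, h⟩
    · refine ⟨fun v => T0 v + 1, ?_, ?_⟩
      · intro T'
        rw [E8.cutCount_add_one]
        exact hT0 T'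
      · simp_rw [← add_assoc, Finset.sum_add_distrib] at h ⊢
        rw [h]
        simp only [Finset.sum_const, Finset.card_univ, nsmul_eq_mul, mul_one]
        rw [Nat.not_even_iff_odd] at hVo
        have : ((Fintype.card V : ℕ) : ZMod 2) = 1 := by
          obtain ⟨k, hk⟩ := hVo
          rw [hk]
          push_cast
          have h2 : (2 : ZMod 2) = 0 := by decide
          rw [h2]
          ring
        rw [this]
        decide
  obtain ⟨w, hw1, hw2, -, -, hw5⟩ := feasible M T hT a z c hac Φ h1 h2 (fun _ => 0) (by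
    intro u
    rw [← hpar]
    apply Finset.sum_congr
    · ext v
      simp only [Finset.mem_filter, Finset.mem_univ, true_and, iff_true]
      exact hM.preconnected u v
    · intro v _
      rfl)
  refine ⟨w, fun _ => 0, hw1, hw2, fun _ => le_rfl, ?_⟩
  intro u v huv
  have h := hw5 u v huv
  unfold val at h ⊢
  simpa using h

end PoolPW
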